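import Pool.Agent.W477.GM.Stms

/-!
# Project GM: part FAM
-/

set_option maxHeartbeats 1000000

namespace Pool.Agent.W477.GM.W797Fam

open Pool.Agent.W477.GM

variable {P : Type 1} [PartialOrder P] [OrderTop P]

theorem step1 (S : SysData P) (hF : HsF P S) (x : Nm P) (h : HS S x) :
    ∃ (I : Type) (N : I → Nm P), (∃ k, N k = x) ∧ (∀ k, HS S (N k)) ∧
      (∀ k (ι : Type) (U : ι → P → Prop) (y : ι → Nm P), N k = .mk ι U y →
        ∀ i, ∃ l, N l = y i) := by
  induction x with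
  | mk ι U x ih =>
    have ih' := fun i => ih i (hF.child ι U x h i)
    choose I N h0 h1 h2 using ih'
    refine ⟨Option (Σ i, I i), fun o => o.elim (.mk ι U x) (fun s => N s.1 s.2),
      ⟨none, rfl⟩, ?_, ?_⟩
    · rintro (_ | ⟨i, k⟩)
      · exact h
      · exact h1 i k
    · rintro (_ | ⟨i, k⟩) κ W y hy j
      · change Nm.mk ι U x = Nm.mk κ W y at hy
        injection hy with e1 e2 e3
        subst e1
        have e3' : x = y := eq_of_heq e3
        subst e3'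
        obtain ⟨l, hl⟩ := h0 j
        exact ⟨some ⟨j, l⟩, hl⟩
      · change N i k = Nm.mk κ W y at hy
        obtain ⟨l, hl⟩ := h2 i k κ W y hy j
        exact ⟨some ⟨i, l⟩, hl⟩

theorem fam_holds (h1 : P_ACT) (h2 : P_HS) (h3 : P_ORB) : P_FAM := by
  intro P _ _ S hS x hx
  have hA := h1 P
  have hF := h2 P S hS
  obtain ⟨I, N, ⟨k0, hk0⟩, hN, hch⟩ := step1 S hF x hx
  choose κ z hz hz' using fun k => h3 P S hS (N k) (hN k)
  refine ⟨Σ k, κ k, fun s => z s.1 s.2, ?_, ?_, ?_, ?_, ?_⟩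
  · obtain ⟨l, hl⟩ := hz' k0 1 hS.one
    refine ⟨⟨k0, l⟩, ?_⟩
    show z k0 l = x
    rw [← hl, hA.one, hk0]
  · rintro ⟨k, l⟩
    obtain ⟨g, hg, e⟩ := hz k l
    show HS S (z k l)
    rw [e]
    exact hF.act g hg _ (hN k)
  · refine hF.livs _ _ ?_
    rintro ⟨k, l⟩
    obtain ⟨g, hg, e⟩ := hz k l
    show HS S (z k l)
    rw [e]
    exact hF.act g hg _ (hN k)
  · rintro ⟨k, l⟩ ι U y hy i
    change z k l = Nm.mk ι U y at hy
    obtain ⟨g, hg, e⟩ := hz k l
    rw [e] at hy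
    cases hNk : N k with
    | mk ι' U' y' =>
      rw [hNk] at hy
      unfold act at hy
      injection hy with e1 e2 e3
      subst e1
      have e3' := eq_of_heq e3
      subst e3'
      obtain ⟨k', hk'⟩ := hch k _ _ _ hNk i
      obtain ⟨l', hl'⟩ := hz' k' g hg
      refine ⟨⟨k', l'⟩, ?_⟩
      show z k' l' = _
      rw [← hl', hk']
  · rintro g hg ⟨k, l⟩
    obtain ⟨g', hg', e⟩ := hz k l
    obtain ⟨l', hl'⟩ := hz' k (g * g') (hS.mul g g' hg hg')
    refine ⟨⟨k, l'⟩, ?_⟩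
    show z k l' = act g (z k l)
    rw [← hl', e, hA.mul]

end Pool.Agent.W477.GM.W797Fam
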